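import Mathlib

set_option autoImplicit false

namespace Pool.Agent.Lib.MP_fc0021_co

open Finset

/-- Lexicographic product with a complete graph. -/
def lexK {V : Type} (G : SimpleGraph V) (q : ℕ) : SimpleGraph (V × Fin q) where
  Adj a b := G.Adj a.1 b.1 ∨ (a.1 = b.1 ∧ a.2 ≠ b.2)
  symm := ⟨by
    rintro a b (h | h)
    · exact Or.inl h.symm
    · exact Or.inr ⟨h.1.symm, h.2.symm⟩⟩
  loopless := ⟨by
    rintro a (h | h)
    · exact G.loopless.irrefl _ h
    · exact h.2 rfl⟩

/-- The (simple) exponential graph. -/
def expG {A : Type} (Γ : SimpleGraph A) (B : Type) : SimpleGraph (A → B) where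
  Adj φ ψ := φ ≠ ψ ∧ ∀ a b, Γ.Adj a b → φ a ≠ ψ b
  symm := ⟨by
    rintro φ ψ ⟨h1, h2⟩
    exact ⟨h1.symm, fun a b hab h => h2 b a hab.symm h.symm⟩⟩
  loopless := ⟨fun _ h => h.1 rfl⟩

section

variable {V C : Type} {L q : ℕ}

/-- Pattern functions. -/
def pat (lab : V → Option (Fin L)) (g : V → C) : V × Fin q → C ⊕ (Fin L × Fin q) :=
  fun a => match lab a.1 with
    | some l => Sum.inr (l, a.2)
    | none => Sum.inl (g a.1)

lemma pat_some {lab : V → Option (Fin L)} {g : V → C} {x : V} {l : Fin L} (h : lab x = some l)
    (i : Fin q) : pat (q := q) lab g (x, i) = Sum.inr (l, i) := by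
  simp only [pat, h]

lemma pat_none {lab : V → Option (Fin L)} {g : V → C} {x : V} (h : lab x = none)
    (i : Fin q) : pat (q := q) lab g (x, i) = Sum.inl (g x) := by
  simp only [pat, h]

/-- `lab'` extends `lab`, new labels being at least `2 * k`. -/
def Ext (k : ℕ) (lab lab' : V → Option (Fin L)) : Prop :=
  (∀ x l, lab x = some l → lab' x = some l) ∧
  (∀ x l, lab x = none → lab' x = some l → 2 * k ≤ (l : ℕ))

lemma Ext.refl (k : ℕ) (lab : V → Option (Fin L)) : Ext k lab lab :=
  ⟨fun _ _ h => h, fun x l h h' => by rw [h] at h'; cases h'⟩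

lemma adj_pat (G : SimpleGraph V) (k : ℕ) (lab lab' : V → Option (Fin L)) (g g' : V → C)
    (hlt : ∀ x l, lab x = some l → (l : ℕ) < 2 * k)
    (hprop : ∀ x y l, G.Adj x y → lab x = some l → lab y ≠ some l)
    (hext : Ext k lab lab')
    (hne : ∀ x y, lab x = none → lab' y = none → (x = y ∨ G.Adj x y) → g x ≠ g' y) :
    ∀ a b, (lexK G q).Adj a b → pat (q := q) lab g a ≠ pat (q := q) lab' g' b := by
  rintro ⟨x, i⟩ ⟨y, j⟩ hab
  have hxy : x = y ∨ G.Adj x y := by
    rcases hab with h | h
    · exact Or.inr h
    · exact Or.inl h.1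
  cases hx : lab x with
  | none =>
    rw [pat_none hx]
    cases hy : lab' y with
    | none =>
      rw [pat_none hy]
      intro h
      exact hne x y hx hy hxy (Sum.inl.inj h)
    | some l => rw [pat_some hy]; exact Sum.inl_ne_inr
  | some l =>
    rw [pat_some hx]
    cases hy : lab' y with
    | none => rw [pat_none hy]; exact Sum.inr_ne_inl
    | some l' =>
      rw [pat_some hy]
      intro h
      have h1 : l = l' ∧ i = j := by
        have := Sum.inr.inj h
        exact ⟨congrArg Prod.fst this, congrArg Prod.snd this⟩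
      obtain ⟨rfl, rfl⟩ := h1
      rcases hab with hadj | ⟨_, h2⟩
      · change G.Adj x y at hadj
        cases hy' : lab y with
        | none =>
          have := hext.2 y l hy' hy
          have := hlt x l hx
          omega
        | some l'' =>
          have h3 := hext.1 y l'' hy'
          rw [hy] at h3
          cases h3
          exact hprop x y l hadj hx hy'
      · exact h2 rfl

end

section counting

variable {V C : Type} [Fintype V] [DecidableEq V] [Fintype C] [DecidableEq C]

lemma card_two_fixed (w x : V) (hx : x ≠ w) (b z : C) :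
    Fintype.card C ^ 2 * (Finset.univ.filter fun g : V → C => g w = b ∧ g x = z).card ≤
      Fintype.card C ^ Fintype.card V := by
  have h1 : Fintype.card ({g : V → C // g w = b ∧ g x = z} × C × C) ≤ Fintype.card (V → C) := by
    apply Fintype.card_le_of_injective
      (fun t : {g : V → C // g w = b ∧ g x = z} × C × C =>
        Function.update (Function.update t.1.1 w t.2.1) x t.2.2)
    rintro ⟨⟨g, hg⟩, c1, c2⟩ ⟨⟨g', hg'⟩, c1', c2'⟩ h
    simp only at h
    have e1 : c2 = c2' := by
      have := congrFun h x
      simpa using this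
    have e2 : c1 = c1' := by
      have := congrFun h w
      simpa [Function.update_of_ne hx.symm] using this
    have e3 : g = g' := by
      funext v
      by_cases hv1 : v = w
      · rw [hv1, hg.1, hg'.1]
      · by_cases hv2 : v = x
        · rw [hv2, hg.2, hg'.2]
        · have := congrFun h v
          simpa [Function.update_of_ne hv1, Function.update_of_ne hv2] using this
    subst e1 e2 e3
    rfl
  rw [Fintype.card_prod, Fintype.card_prod, Fintype.card_fun, Fintype.card_subtype] at h1
  calc _ = (Finset.univ.filter fun g : V → C => g w = b ∧ g x = z).card *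
        (Fintype.card C * Fintype.card C) := by ring
    _ ≤ _ := h1

/-- A dense set of functions with a prescribed value at `w` contains one avoiding a small set of
colours elsewhere. -/
lemma avoid (M : ℕ) (w : V) (b : C) (X : Finset (V → C)) (hX : ∀ g ∈ X, g w = b)
    (hdense : Fintype.card C ^ Fintype.card V ≤ M * Fintype.card C * X.card)
    (Z : Finset C) (hZ : M * (Fintype.card V * Z.card) < Fintype.card C) :
    ∃ g ∈ X, ∀ x, x ≠ w → g x ∉ Z := by
  by_contra hcon
  push Not at hcon
  set m := Fintype.card C with hm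
  set p := Fintype.card V with hp
  have hmpos : 0 < m := by omega
  have hXsub : X ⊆ (Finset.univ.erase w).biUnion (fun x => Z.biUnion (fun z =>
      Finset.univ.filter fun g : V → C => g w = b ∧ g x = z)) := by
    intro g hg
    obtain ⟨x, hxw, hxZ⟩ := hcon g hg
    simp only [Finset.mem_biUnion, Finset.mem_erase, Finset.mem_univ, and_true,
      Finset.mem_filter, true_and]
    exact ⟨x, hxw, g x, hxZ, hX g hg, rfl⟩
  have hcard : m ^ 2 * X.card ≤ (p * Z.card) * m ^ p := by
    have h1 : X.card ≤ ∑ x ∈ Finset.univ.erase w, ∑ z ∈ Z,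
        (Finset.univ.filter fun g : V → C => g w = b ∧ g x = z).card := by
      refine (Finset.card_le_card hXsub).trans (Finset.card_biUnion_le.trans ?_)
      exact Finset.sum_le_sum (fun x _ => Finset.card_biUnion_le)
    calc m ^ 2 * X.card ≤ m ^ 2 * ∑ x ∈ Finset.univ.erase w, ∑ z ∈ Z,
        (Finset.univ.filter fun g : V → C => g w = b ∧ g x = z).card :=
          Nat.mul_le_mul_left _ h1
      _ = ∑ x ∈ Finset.univ.erase w, ∑ z ∈ Z,
        m ^ 2 * (Finset.univ.filter fun g : V → C => g w = b ∧ g x = z).card := by
          rw [Finset.mul_sum]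
          exact Finset.sum_congr rfl (fun x _ => Finset.mul_sum _ _ _)
      _ ≤ ∑ x ∈ Finset.univ.erase w, ∑ z ∈ Z, m ^ p := by
          apply Finset.sum_le_sum
          intro x hx
          apply Finset.sum_le_sum
          intro z _
          exact card_two_fixed w x (Finset.ne_of_mem_erase hx) b z
      _ = (Finset.univ.erase w).card * (Z.card * m ^ p) := by
          simp [Finset.sum_const]
      _ ≤ p * (Z.card * m ^ p) := by
          apply Nat.mul_le_mul_right
          exact Finset.card_le_univ _
      _ = _ := by ring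
  have hXpos : 0 < X.card := by
    by_contra h0
    have h0' : X.card = 0 := by omega
    rw [h0', mul_zero] at hdense
    have : 0 < m ^ p := Nat.pow_pos hmpos
    omega
  have h2 : m ^ 2 * X.card ≤ (p * Z.card) * (M * m * X.card) :=
    hcard.trans (Nat.mul_le_mul_left _ hdense)
  have h3 : m * (m * X.card) ≤ (M * (p * Z.card)) * (m * X.card) := by
    calc m * (m * X.card) = m ^ 2 * X.card := by ring
      _ ≤ _ := h2
      _ = _ := by ring
  have h4 : m ≤ M * (p * Z.card) := Nat.le_of_mul_le_mul_right h3 (by positivity)
  omega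

end counting

end Pool.Agent.Lib.MP_fc0021_co
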