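import Pool.Agent.Lib.MP_fc0021_co.Core

set_option autoImplicit false

namespace Pool.Agent.Lib.MP_fc0021_co

open Finset

section main

variable {V C : Type} [Fintype V] [DecidableEq V] [Fintype C] [DecidableEq C]

/-- Functions with a prescribed value and a prescribed colour. -/
def fib {L q t : ℕ} (Ψ : (V × Fin q → C ⊕ (Fin L × Fin q)) → Fin t)
    (lab : V → Option (Fin L)) (s : Fin t) (w : V) (b : C) : Finset (V → C) :=
  Finset.univ.filter fun g : V → C => g w = b ∧ Ψ (pat lab g) = s

/-- Popularity. -/
def Pop {L q t : ℕ} (M : ℕ) (Ψ : (V × Fin q → C ⊕ (Fin L × Fin q)) → Fin t)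
    (lab : V → Option (Fin L)) (s : Fin t) (w : V) (b : C) : Prop :=
  Fintype.card C ^ Fintype.card V ≤ M * Fintype.card C * (fib Ψ lab s w b).card

lemma pop_unique {L q t : ℕ} (G : SimpleGraph V) (M : ℕ) (hq : 0 < q)
    (hM : M * (Fintype.card V * Fintype.card V) < Fintype.card C)
    (Ψ : (V × Fin q → C ⊕ (Fin L × Fin q)) → Fin t)
    (hΨ : ∀ φ ψ, (expG (lexK G q) (C ⊕ (Fin L × Fin q))).Adj φ ψ → Ψ φ ≠ Ψ ψ)
    (k : ℕ) (lab : V → Option (Fin L))
    (hlt : ∀ x l, lab x = some l → (l : ℕ) < 2 * k)
    (hprop : ∀ x y l, G.Adj x y → lab x = some l → lab y ≠ some l)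
    (s : Fin t) (w w' : V) (b b' : C) (hw : lab w = none)
    (h1 : Pop M Ψ lab s w b) (h2 : Pop M Ψ lab s w' b') : b = b' := by
  by_contra hbb
  have hp : 1 ≤ Fintype.card V := Fintype.card_pos_iff.mpr ⟨w⟩
  obtain ⟨g, hg, hgz⟩ := avoid M w b (fib Ψ lab s w b)
    (fun g hg => by simp only [fib, Finset.mem_filter] at hg; exact hg.2.1) h1 {b'}
    (by
      rw [Finset.card_singleton, mul_one]
      refine lt_of_le_of_lt (Nat.mul_le_mul_left _ ?_) hM
      nlinarith)
  have hgb : ∀ x, g x ≠ b' := by
    intro x
    by_cases hx : x = w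
    · subst hx
      simp only [fib, Finset.mem_filter] at hg
      rw [hg.2.1]; exact hbb
    · have := hgz x hx
      simpa using this
  obtain ⟨g', hg', hgz'⟩ := avoid M w' b' (fib Ψ lab s w' b')
    (fun g hg => by simp only [fib, Finset.mem_filter] at hg; exact hg.2.1) h2
    (Finset.univ.image g)
    (lt_of_le_of_lt (Nat.mul_le_mul_left _ (Nat.mul_le_mul_left _ Finset.card_image_le)) hM)
  have hdis : ∀ x y, g x ≠ g' y := by
    intro x y hxy
    by_cases hy : y = w'
    · subst hy
      simp only [fib, Finset.mem_filter] at hg'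
      rw [hg'.2.1] at hxy
      exact hgb x hxy
    · apply hgz' y hy
      rw [← hxy]
      exact Finset.mem_image_of_mem g (Finset.mem_univ x)
  simp only [fib, Finset.mem_filter] at hg hg'
  apply hΨ (pat lab g) (pat lab g') _ (hg.2.2.trans hg'.2.2.symm)
  refine ⟨?_, adj_pat G k lab lab g g' hlt hprop (Ext.refl k lab) (fun x y _ _ _ => hdis x y)⟩
  intro h
  have := congrFun h (w, ⟨0, hq⟩)
  rw [pat_none hw, pat_none hw] at this
  exact hdis w w (Sum.inl.inj this)

/-- Existence of a vertex with many popular values. -/
lemma exists_rich {L q t : ℕ} (G : SimpleGraph V) (K : ℕ) (hq : 0 < q)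
    (hm : 0 < Fintype.card C)
    (Ψ : (V × Fin q → C ⊕ (Fin L × Fin q)) → Fin t)
    (hΨ : ∀ φ ψ, (expG (lexK G q) (C ⊕ (Fin L × Fin q))).Adj φ ψ → Ψ φ ≠ Ψ ψ)
    (k : ℕ) (lab : V → Option (Fin L))
    (hlt : ∀ x l, lab x = some l → (l : ℕ) < 2 * k)
    (hprop : ∀ x y l, G.Adj x y → lab x = some l → lab y ≠ some l)
    (w0 : V) (hw0 : lab w0 = none) (ht : 2 * t < K * Fintype.card C) :
    ∃ w, lab w = none ∧ ∃ B : Finset C, Fintype.card C ≤ 2 * B.card ∧
      ∀ b ∈ B, ∃ s, Pop (K * (Fintype.card V * Fintype.card V) * 2 ^ Fintype.card V) Ψ lab s w b := by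
  classical
  set m := Fintype.card C with hmdef
  set p := Fintype.card V with hpdef
  set M := K * (p * p) * 2 ^ p with hMdef
  have hp : 1 ≤ p := Fintype.card_pos_iff.mpr ⟨w0⟩
  by_contra hcon
  push Not at hcon
  set B : V → Finset C := fun w => Finset.univ.filter (fun b => ∃ s, Pop M Ψ lab s w b) with hB
  have hsmall : ∀ w, lab w = none → 2 * (B w).card < m := by
    intro w hw
    by_contra hge
    push Not at hge
    obtain ⟨b, hb, hb'⟩ := hcon w hw (B w) hge
    rw [hB] at hb
    simp only [Finset.mem_filter, Finset.mem_univ, true_and] at hb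
    obtain ⟨s, hs⟩ := hb
    exact hb' s hs
  set F : V → Finset C := fun w => if lab w = none then Finset.univ \ B w else Finset.univ with hF
  set Gd := Fintype.piFinset F with hGd
  have hGdcard : m ^ p ≤ 2 ^ p * Gd.card := by
    rw [hGd, Fintype.card_piFinset]
    have h1 : m ^ p = ∏ _w : V, m := by simp [hpdef]
    have h2 : (2 : ℕ) ^ p = ∏ _w : V, 2 := by simp [hpdef]
    rw [h1, h2, ← Finset.prod_mul_distrib]
    apply Finset.prod_le_prod
    · intro _ _; exact Nat.zero_le _
    · intro w _
      rw [hF]
      simp only
      split_ifs with hw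
      · rw [Finset.card_sdiff_of_subset (Finset.subset_univ _), Finset.card_univ, ← hmdef]
        have := hsmall w hw
        omega
      · rw [Finset.card_univ, ← hmdef]; omega
  have hfib : ∀ s : Fin t, M * m * (Gd.filter fun g => Ψ (pat lab g) = s).card ≤ p * p * m ^ p := by
    intro s
    rcases (Gd.filter fun g => Ψ (pat lab g) = s).eq_empty_or_nonempty with he | ⟨g0, hg0⟩
    · rw [he]; simp
    · rw [Finset.mem_filter] at hg0
      -- the bad pairs
      set P : Finset (V × V) := Finset.univ.filter (fun xy => ¬ Pop M Ψ lab s xy.1 (g0 xy.2)) with hP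
      have hsub : (Gd.filter fun g => Ψ (pat lab g) = s) ⊆
          P.biUnion (fun xy => fib Ψ lab s xy.1 (g0 xy.2)) := by
        intro g hg
        rw [Finset.mem_filter] at hg
        have hex : ∃ x y, lab x = none ∧ g x = g0 y := by
          by_contra hno
          push Not at hno
          apply hΨ (pat lab g) (pat lab g0) _ (hg.2.trans hg0.2.symm)
          by_cases heq : (pat lab g : V × Fin q → C ⊕ (Fin L × Fin q)) = pat lab g0
          · exfalso
            have := congrFun heq (w0, ⟨0, hq⟩)
            rw [pat_none hw0, pat_none hw0] at this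
            exact hno w0 w0 hw0 (Sum.inl.inj this)
          · exact ⟨heq, adj_pat G k lab lab g g0 hlt hprop (Ext.refl k lab)
              (fun x y hx _ _ => hno x y hx)⟩
        obtain ⟨x, y, hx, hxy⟩ := hex
        rw [Finset.mem_biUnion]
        refine ⟨(x, y), ?_, ?_⟩
        · rw [hP, Finset.mem_filter]
          refine ⟨Finset.mem_univ _, ?_⟩
          intro hpop
          simp only at hpop
          rw [← hxy] at hpop
          have := Fintype.mem_piFinset.mp hg.1 x
          rw [hF] at this
          simp only [hx, if_true, Finset.mem_sdiff, Finset.mem_univ, true_and] at this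
          apply this
          rw [hB]
          simp only [Finset.mem_filter, Finset.mem_univ, true_and]
          exact ⟨s, hpop⟩
        · simp only [fib, Finset.mem_filter, Finset.mem_univ, true_and]
          exact ⟨hxy, hg.2⟩
      calc M * m * (Gd.filter fun g => Ψ (pat lab g) = s).card
          ≤ M * m * ∑ xy ∈ P, (fib Ψ lab s xy.1 (g0 xy.2)).card :=
            Nat.mul_le_mul_left _ ((Finset.card_le_card hsub).trans Finset.card_biUnion_le)
        _ = ∑ xy ∈ P, M * m * (fib Ψ lab s xy.1 (g0 xy.2)).card := by rw [Finset.mul_sum]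
        _ ≤ ∑ xy ∈ P, m ^ p := by
            apply Finset.sum_le_sum
            intro xy hxy
            rw [hP, Finset.mem_filter] at hxy
            exact (not_le.mp hxy.2).le
        _ = P.card * m ^ p := by simp
        _ ≤ p * p * m ^ p := by
            apply Nat.mul_le_mul_right
            calc P.card ≤ Fintype.card (V × V) := Finset.card_le_univ _
              _ = p * p := by rw [Fintype.card_prod]
  have hsum : M * m * Gd.card ≤ t * (p * p * m ^ p) := by
    have h1 : Gd.card = ∑ s : Fin t, (Gd.filter fun g => Ψ (pat lab g) = s).card :=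
      Finset.card_eq_sum_card_fiberwise (fun _ _ => Finset.mem_coe.mpr (Finset.mem_univ _))
    rw [h1, Finset.mul_sum]
    calc _ ≤ ∑ _s : Fin t, p * p * m ^ p := Finset.sum_le_sum (fun s _ => hfib s)
      _ = _ := by simp
  have h3 : M * m * m ^ p ≤ 2 ^ p * (t * (p * p * m ^ p)) := by
    calc M * m * m ^ p ≤ M * m * (2 ^ p * Gd.card) := Nat.mul_le_mul_left _ hGdcard
      _ = 2 ^ p * (M * m * Gd.card) := by ring
      _ ≤ _ := Nat.mul_le_mul_left _ hsum
  have h4 : (K * m) * (p * p * 2 ^ p * m ^ p) ≤ t * (p * p * 2 ^ p * m ^ p) := by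
    calc (K * m) * (p * p * 2 ^ p * m ^ p) = M * m * m ^ p := by rw [hMdef]; ring
      _ ≤ _ := h3
      _ = _ := by ring
  have h5 : K * m ≤ t := by
    apply Nat.le_of_mul_le_mul_right h4
    have : 0 < m ^ p := Nat.pow_pos hm
    positivity
  omega

/-- The main induction. -/
lemma induct {q t : ℕ} (G : SimpleGraph V) (K : ℕ) (hq : 0 < q)
    (htf : ∀ x y z, G.Adj x y → G.Adj y z → ¬ G.Adj x z)
    (hcov : ∀ W : Finset V, W.card < K → ∃ v, ∀ w ∈ W, v ≠ w ∧ ¬ G.Adj w v)
    (hm : K * (Fintype.card V * Fintype.card V) * 2 ^ Fintype.card V *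
      (Fintype.card V * Fintype.card V) < Fintype.card C)
    (Ψ : (V × Fin q → C ⊕ (Fin (2 * K) × Fin q)) → Fin t)
    (hΨ : ∀ φ ψ, (expG (lexK G q) (C ⊕ (Fin (2 * K) × Fin q))).Adj φ ψ → Ψ φ ≠ Ψ ψ)
    (ht : 2 * t < K * Fintype.card C) (k : ℕ) (hk : k ≤ K) :
    ∃ (lab : V → Option (Fin (2 * K))) (W : Finset V) (E : Finset (Fin t)),
      W.card ≤ k ∧ (∀ v, (∀ w ∈ W, v ≠ w ∧ ¬ G.Adj w v) → lab v = none) ∧
      (∀ x l, lab x = some l → (l : ℕ) < 2 * k) ∧
      (∀ x y l, G.Adj x y → lab x = some l → lab y ≠ some l) ∧
      k * Fintype.card C ≤ 2 * E.card ∧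
      (∀ lab' : V → Option (Fin (2 * K)), Ext k lab lab' → ∀ g : V → C, Ψ (pat lab' g) ∉ E) := by
  classical
  induction k with
  | zero =>
    refine ⟨fun _ => none, ∅, ∅, by simp, by simp, by simp, by simp, by simp, by simp⟩
  | succ k ih =>
    obtain ⟨lab, W, E, hW, hU, hlt, hprop, hE, hforb⟩ := ih (by omega)
    obtain ⟨w0, hw0⟩ := hcov W (by omega)
    have hmpos : 0 < Fintype.card C := by omega
    obtain ⟨w, hw, B, hBcard, hB⟩ := exists_rich G K hq hmpos Ψ hΨ k lab hlt hprop w0 (hU w0 hw0) ht
    set M := K * (Fintype.card V * Fintype.card V) * 2 ^ Fintype.card V with hMdef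
    -- the colours
    set S : Finset (Fin t) := Finset.univ.filter (fun s => ∃ b, Pop M Ψ lab s w b) with hS
    have hScard : B.card ≤ S.card := by
      have : Nonempty (Fin t) := ⟨Ψ (fun a => Sum.inr (⟨0, by omega⟩, a.2))⟩
      choose! σ hσ using hB
      apply Finset.card_le_card_of_injOn σ
      · intro b hb
        rw [hS]
        simp only [Finset.coe_filter, Finset.mem_univ, true_and, Set.mem_ofPred_eq]
        exact ⟨b, hσ b hb⟩
      · intro b hb b' hb' hbb
        have h1 := hσ b hb
        have h2 := hσ b' hb'
        rw [← hbb] at h2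
        exact pop_unique G M hq hm Ψ hΨ k lab hlt hprop (σ b) w w b b' hw h1 h2
    have hdisj : Disjoint E S := by
      rw [Finset.disjoint_left]
      intro s hsE hsS
      rw [hS, Finset.mem_filter] at hsS
      obtain ⟨b, hb⟩ := hsS.2
      have hne : (fib Ψ lab s w b).Nonempty := by
        rw [Finset.nonempty_iff_ne_empty]
        intro he
        rw [Pop, he, Finset.card_empty, mul_zero] at hb
        have : 0 < Fintype.card C ^ Fintype.card V := Nat.pow_pos hmpos
        omega
      obtain ⟨g, hg⟩ := hne
      simp only [fib, Finset.mem_filter] at hg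
      apply hforb lab (Ext.refl k lab) g
      rw [hg.2.2]
      exact hsE
    have h2k : 2 * k < 2 * K := by omega
    have h2k1 : 2 * k + 1 < 2 * K := by omega
    set lab' : V → Option (Fin (2 * K)) := fun x =>
      if lab x = none then (if x = w then some ⟨2 * k, h2k⟩ else
        if G.Adj w x then some ⟨2 * k + 1, h2k1⟩ else none) else lab x with hlab'
    have hlab'_old : ∀ x l, lab x = some l → lab' x = some l := by
      intro x l hx
      rw [hlab']
      simp only [hx]
      simp
    have hlab'_w : lab' w = some ⟨2 * k, h2k⟩ := by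
      rw [hlab']
      simp [hw]
    have hlab'_nb : ∀ x, lab x = none → x ≠ w → G.Adj w x → lab' x = some ⟨2 * k + 1, h2k1⟩ := by
      intro x hx hxw hadj
      rw [hlab']
      simp [hx, hxw, hadj]
    have hlab'_no : ∀ x, lab x = none → x ≠ w → ¬ G.Adj w x → lab' x = none := by
      intro x hx hxw hadj
      rw [hlab']
      simp [hx, hxw, hadj]
    have hlab'_nn : ∀ y, (y = w ∨ G.Adj w y) → ∃ l, lab' y = some l := by
      intro y hy
      cases hy' : lab y with
      | some l => exact ⟨l, hlab'_old y l hy'⟩
      | none =>
        by_cases hyw : y = w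
        · exact ⟨_, hyw ▸ hlab'_w⟩
        · rcases hy with h | h
          · exact absurd h hyw
          · exact ⟨_, hlab'_nb y hy' hyw h⟩
    have hext' : ∀ lab'' : V → Option (Fin (2 * K)), Ext (k + 1) lab' lab'' → Ext k lab lab'' := by
      intro lab'' h
      refine ⟨fun x l hx => h.1 x l (hlab'_old x l hx), ?_⟩
      intro x l hx hx'
      by_cases hxw : x = w
      · rw [hxw] at hx'
        have := h.1 w _ hlab'_w
        rw [hx'] at this
        cases this
        simp
      · by_cases hadj : G.Adj w x
        · have := h.1 x _ (hlab'_nb x hx hxw hadj)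
          rw [hx'] at this
          cases this
          simp
        · have := h.2 x l (hlab'_no x hx hxw hadj) hx'
          omega
    refine ⟨lab', insert w W, E ∪ S, ?_, ?_, ?_, ?_, ?_, ?_⟩
    · exact (Finset.card_insert_le w W).trans (by omega)
    · intro v hv
      have h1 := hv w (Finset.mem_insert_self w W)
      have h2 : lab v = none := hU v (fun u hu => hv u (Finset.mem_insert_of_mem hu))
      exact hlab'_no v h2 h1.1 h1.2
    · intro x l hx
      cases hx' : lab x with
      | some l' =>
        have := hlab'_old x l' hx'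
        rw [hx] at this
        cases this
        have := hlt x l hx'
        omega
      | none =>
        by_cases hxw : x = w
        · subst hxw
          rw [hlab'_w] at hx
          cases hx
          simp only
          omega
        · by_cases hadj : G.Adj w x
          · rw [hlab'_nb x hx' hxw hadj] at hx
            cases hx
            simp only
            omega
          · rw [hlab'_no x hx' hxw hadj] at hx
            cases hx
    · intro x y l hxy hx hy
      cases hx' : lab x with
      | some l' =>
        have h1 := hlab'_old x l' hx'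
        rw [hx] at h1
        cases h1
        cases hy' : lab y with
        | some l'' =>
          have h2 := hlab'_old y l'' hy'
          rw [hy] at h2
          cases h2
          exact hprop x y l hxy hx' hy'
        | none =>
          have h3 := hlt x l hx'
          by_cases hyw : y = w
          · subst hyw
            rw [hlab'_w] at hy
            cases hy
            simp at h3
          · by_cases hadj : G.Adj w y
            · rw [hlab'_nb y hy' hyw hadj] at hy
              cases hy
              simp at h3
            · rw [hlab'_no y hy' hyw hadj] at hy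
              cases hy
      | none =>
        by_cases hxw : x = w
        · subst hxw
          rw [hlab'_w] at hx
          cases hx
          cases hy' : lab y with
          | some l'' =>
            have h2 := hlab'_old y l'' hy'
            rw [hy] at h2
            cases h2
            have h3 := hlt y _ hy'
            simp at h3
          | none =>
            have hyw : y ≠ x := hxy.ne'
            rw [hlab'_nb y hy' hyw hxy] at hy
            have := congrArg Fin.val (Option.some.inj hy)
            simp at this
        · by_cases hadj : G.Adj w x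
          · rw [hlab'_nb x hx' hxw hadj] at hx
            cases hx
            cases hy' : lab y with
            | some l'' =>
              have h2 := hlab'_old y l'' hy'
              rw [hy] at h2
              cases h2
              have h3 := hlt y _ hy'
              simp only at h3
              omega
            | none =>
              by_cases hyw : y = w
              · subst hyw
                rw [hlab'_w] at hy
                have := congrArg Fin.val (Option.some.inj hy)
                simp at this
              · by_cases hadj' : G.Adj w y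
                · exact htf w x y hadj hxy hadj'
                · rw [hlab'_no y hy' hyw hadj'] at hy
                  cases hy
          · rw [hlab'_no x hx' hxw hadj] at hx
            cases hx
    · rw [Finset.card_union_of_disjoint hdisj]
      have : (k + 1) * Fintype.card C = k * Fintype.card C + Fintype.card C := by ring
      omega
    · intro lab'' hlab'' g'' hmem
      rw [Finset.mem_union] at hmem
      rcases hmem with hmem | hmem
      · exact hforb lab'' (hext' lab'' hlab'') g'' hmem
      · rw [hS, Finset.mem_filter] at hmem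
        obtain ⟨b, hb⟩ := hmem.2
        obtain ⟨g, hg, hgz⟩ := avoid M w b (fib Ψ lab _ w b)
          (fun g hg => by simp only [fib, Finset.mem_filter] at hg; exact hg.2.1) hb
          (Finset.univ.image g'')
          (lt_of_le_of_lt (Nat.mul_le_mul_left _ (Nat.mul_le_mul_left _ Finset.card_image_le)) hm)
        simp only [fib, Finset.mem_filter] at hg
        apply hΨ (pat lab g) (pat lab'' g'') _ hg.2.2
        refine ⟨?_, adj_pat G k lab lab'' g g'' hlt hprop (hext' lab'' hlab'') ?_⟩
        · intro h
          have h1 := congrFun h (w, ⟨0, hq⟩)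
          rw [pat_none hw, pat_some (hlab''.1 w _ hlab'_w)] at h1
          cases h1
        · intro x y hx hy hxy heq
          by_cases hxw : x = w
          · subst hxw
            obtain ⟨l, hl⟩ := hlab'_nn y (hxy.imp (fun h => h.symm) id)
            rw [hlab''.1 y l hl] at hy
            cases hy
          · apply hgz x hxw
            rw [heq]
            exact Finset.mem_image_of_mem g'' (Finset.mem_univ y)

/-- Lower bound for the number of colours of the exponential graph. -/
theorem exp_lower {q t : ℕ} (G : SimpleGraph V) (K : ℕ) (hq : 0 < q)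
    (htf : ∀ x y z, G.Adj x y → G.Adj y z → ¬ G.Adj x z)
    (hcov : ∀ W : Finset V, W.card < K → ∃ v, ∀ w ∈ W, v ≠ w ∧ ¬ G.Adj w v)
    (hm : K * (Fintype.card V * Fintype.card V) * 2 ^ Fintype.card V *
      (Fintype.card V * Fintype.card V) < Fintype.card C)
    (Ψ : (V × Fin q → C ⊕ (Fin (2 * K) × Fin q)) → Fin t)
    (hΨ : ∀ φ ψ, (expG (lexK G q) (C ⊕ (Fin (2 * K) × Fin q))).Adj φ ψ → Ψ φ ≠ Ψ ψ) :
    K * Fintype.card C ≤ 2 * t := by
  by_contra ht
  push Not at ht
  obtain ⟨lab, W, E, _, _, _, _, hE, _⟩ := induct G K hq htf hcov hm Ψ hΨ ht K le_rfl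
  have : E.card ≤ t := by
    have := Finset.card_le_univ E
    simpa using this
  omega

end main

end Pool.Agent.Lib.MP_fc0021_co
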