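import Mathlib

set_option autoImplicit false

namespace Pool.Agent.Lib.MP_fc0021_co

open Finset

lemma prod_one_sub_bound {ι : Type} [DecidableEq ι] (s : Finset ι) (a : ι → ℝ)
    (h0 : ∀ i ∈ s, 0 ≤ a i) (h1 : ∀ i ∈ s, a i ≤ 1) :
    (1 + ∑ i ∈ s, a i) * ∏ i ∈ s, (1 - a i) ≤ 1 := by
  induction s using Finset.induction_on with
  | empty => simp
  | insert j s hj ih =>
    rw [Finset.sum_insert hj, Finset.prod_insert hj]
    have h0' : ∀ i ∈ s, 0 ≤ a i := fun i hi => h0 i (Finset.mem_insert_of_mem hi)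
    have h1' : ∀ i ∈ s, a i ≤ 1 := fun i hi => h1 i (Finset.mem_insert_of_mem hi)
    have ih' := ih h0' h1'
    have hP : 0 ≤ ∏ i ∈ s, (1 - a i) :=
      Finset.prod_nonneg (fun i hi => by linarith [h1' i hi])
    have hA : 0 ≤ ∑ i ∈ s, a i := Finset.sum_nonneg h0'
    have ha0 := h0 j (Finset.mem_insert_self j s)
    calc (1 + (a j + ∑ i ∈ s, a i)) * ((1 - a j) * ∏ i ∈ s, (1 - a i))
        = ((1 + ∑ i ∈ s, a i) - (∑ i ∈ s, a i) * a j - a j ^ 2) * ∏ i ∈ s, (1 - a i) := by ring
      _ ≤ (1 + ∑ i ∈ s, a i) * ∏ i ∈ s, (1 - a i) := by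
          apply mul_le_mul_of_nonneg_right _ hP
          nlinarith [mul_nonneg hA ha0, sq_nonneg (a j)]
      _ ≤ 1 := ih'

/-- The Zykov-type extension of a graph. -/
def zyk {V : Type} (m : ℕ) (G : SimpleGraph V) : SimpleGraph ((Fin m × V) ⊕ (Fin m → V)) where
  Adj a b := match a, b with
    | Sum.inl (i, x), Sum.inl (j, y) => i = j ∧ G.Adj x y
    | Sum.inl (i, x), Sum.inr f => f i = x
    | Sum.inr f, Sum.inl (i, x) => f i = x
    | Sum.inr _, Sum.inr _ => False
  symm := ⟨by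
    rintro (⟨i, x⟩ | f) (⟨j, y⟩ | g) h
    · exact ⟨h.1.symm, h.2.symm⟩
    · exact h
    · exact h
    · exact h⟩
  loopless := ⟨by
    rintro (⟨i, x⟩ | f) h
    · exact G.loopless.irrefl x h.2
    · exact h⟩

lemma zyk_triangleFree {V : Type} (m : ℕ) (G : SimpleGraph V)
    (hG : ∀ x y z, G.Adj x y → G.Adj y z → ¬ G.Adj x z) :
    ∀ a b c, (zyk m G).Adj a b → (zyk m G).Adj b c → ¬ (zyk m G).Adj a c := by
  rintro (⟨i, x⟩ | f) (⟨j, y⟩ | g) (⟨k, z⟩ | h) h1 h2 h3
  · exact hG x y z h1.2 h2.2 h3.2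
  · change i = j ∧ G.Adj x y at h1
    change h j = y at h2
    change h i = x at h3
    obtain ⟨rfl, h1⟩ := h1
    rw [h2] at h3
    subst h3
    exact G.loopless.irrefl _ h1
  · change g i = x at h1
    change g k = z at h2
    change i = k ∧ G.Adj x z at h3
    obtain ⟨rfl, h3⟩ := h3
    rw [h1] at h2
    subst h2
    exact G.loopless.irrefl _ h3
  · exact h2
  · change f j = y at h1
    change j = k ∧ G.Adj y z at h2
    change f k = z at h3
    obtain ⟨rfl, h2⟩ := h2
    rw [h1] at h3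
    subst h3
    exact G.loopless.irrefl _ h2
  · exact h3
  · exact h1
  · exact h1

/-- One Zykov step raises the (weighted) ratio by at least one half. -/
theorem zykov_step (ρ : ℝ) (hρ : 1 ≤ ρ)
    (h : ∃ (V : Type) (_ : Fintype V) (_ : DecidableEq V) (G : SimpleGraph V) (μ : V → ℝ),
      (∀ x, 0 ≤ μ x) ∧ ∑ x, μ x = 1 ∧
      (∀ x y z, G.Adj x y → G.Adj y z → ¬ G.Adj x z) ∧
      (∀ I : Finset V, (∀ x ∈ I, ∀ y ∈ I, ¬ G.Adj x y) → ρ * ∑ x ∈ I, μ x ≤ 1)) :
    ∃ (V : Type) (_ : Fintype V) (_ : DecidableEq V) (G : SimpleGraph V) (μ : V → ℝ),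
      (∀ x, 0 ≤ μ x) ∧ ∑ x, μ x = 1 ∧
      (∀ x y z, G.Adj x y → G.Adj y z → ¬ G.Adj x z) ∧
      (∀ I : Finset V, (∀ x ∈ I, ∀ y ∈ I, ¬ G.Adj x y) → (ρ + 1 / 2) * ∑ x ∈ I, μ x ≤ 1) := by
  classical
  obtain ⟨V, _, _, G, μ, hμ0, hμ1, htf, hind⟩ := h
  obtain ⟨m, hm⟩ := exists_nat_ge (2 * ρ * ρ)
  have hmpos : (0 : ℝ) < m := by nlinarith
  have hρpos : (0 : ℝ) < ρ := by linarith
  set β : ℝ := m / ρ + 1 with hβ
  have hβpos : 0 < β := by positivity
  set W : ℝ := m + β with hW
  have hWpos : 0 < W := by positivity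
  refine ⟨(Fin m × V) ⊕ (Fin m → V), inferInstance, inferInstance, zyk m G,
    Sum.elim (fun p => μ p.2 / W) (fun f => β * (∏ i, μ (f i)) / W), ?_, ?_,
    zyk_triangleFree m G htf, ?_⟩
  · rintro (⟨i, x⟩ | f)
    · exact div_nonneg (hμ0 x) hWpos.le
    · exact div_nonneg (mul_nonneg hβpos.le (Finset.prod_nonneg (fun i _ => hμ0 _))) hWpos.le
  · rw [Fintype.sum_sum_type]
    simp only [Sum.elim_inl, Sum.elim_inr]
    rw [Fintype.sum_prod_type]
    have h1 : ∀ i : Fin m, ∑ x, μ x / W = 1 / W := by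
      intro i
      rw [← Finset.sum_div, hμ1]
    rw [Finset.sum_congr rfl (fun i _ => h1 i)]
    have h2 : ∑ f : Fin m → V, ∏ i, μ (f i) = 1 := by
      have := Finset.prod_univ_sum (fun _ : Fin m => (Finset.univ : Finset V)) (fun _ x => μ x)
      rw [Fintype.piFinset_univ] at this
      rw [← this]
      simp [hμ1]
    rw [← Finset.sum_div, ← Finset.sum_div, ← Finset.mul_sum, h2]
    simp only [Finset.sum_const, Finset.card_univ, Fintype.card_fin, nsmul_eq_mul]
    field_simp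
    rw [hW]
  · intro I hI
    -- traces
    set Ii : Fin m → Finset V := fun i => Finset.univ.filter (fun x => Sum.inl (i, x) ∈ I) with hIi
    set Ir : Finset (Fin m → V) := Finset.univ.filter (fun f => Sum.inr f ∈ I) with hIr
    set a : Fin m → ℝ := fun i => ∑ x ∈ Ii i, μ x with ha
    have hsplit : ∑ v ∈ I, Sum.elim (fun p : Fin m × V => μ p.2 / W)
        (fun f => β * (∏ i, μ (f i)) / W) v =
        (∑ i, a i + β * ∑ f ∈ Ir, ∏ i, μ (f i)) / W := by
      have h1 : ∑ v ∈ I, Sum.elim (fun p : Fin m × V => μ p.2 / W)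
          (fun f => β * (∏ i, μ (f i)) / W) v =
          ∑ v, if v ∈ I then Sum.elim (fun p : Fin m × V => μ p.2 / W)
          (fun f => β * (∏ i, μ (f i)) / W) v else 0 := by
        rw [Finset.sum_ite_mem, Finset.univ_inter]
      rw [h1, Fintype.sum_sum_type]
      simp only [Sum.elim_inl, Sum.elim_inr]
      rw [Fintype.sum_prod_type, add_div]
      congr 1
      · rw [Finset.sum_div]
        apply Finset.sum_congr rfl
        intro i _
        rw [ha, Finset.sum_div, hIi]
        simp only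
        rw [Finset.sum_filter]
      · rw [Finset.mul_sum, Finset.sum_div, hIr, Finset.sum_filter]
    have ha0 : ∀ i, 0 ≤ a i := fun i => Finset.sum_nonneg (fun x _ => hμ0 x)
    have haρ : ∀ i, a i ≤ 1 / ρ := by
      intro i
      rw [le_div_iff₀ hρpos, mul_comm]
      apply hind
      intro x hx y hy hxy
      rw [hIi] at hx hy
      simp only [Finset.mem_filter, Finset.mem_univ, true_and] at hx hy
      exact hI _ hx _ hy ⟨rfl, hxy⟩
    have ha1 : ∀ i, a i ≤ 1 := fun i => (haρ i).trans (by rw [div_le_one hρpos]; exact hρ)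
    have hprod : ∑ f ∈ Ir, ∏ i, μ (f i) ≤ ∏ i, (1 - a i) := by
      have h1 : ∏ i, (1 - a i) = ∑ f ∈ Fintype.piFinset (fun i => Finset.univ \ Ii i),
          ∏ i, μ (f i) := by
        rw [← Finset.prod_univ_sum]
        apply Finset.prod_congr rfl
        intro i _
        rw [ha]
        simp only
        have := Finset.sum_sdiff (f := μ) (Finset.subset_univ (Ii i))
        rw [hμ1] at this
        linarith
      rw [h1]
      apply Finset.sum_le_sum_of_subset_of_nonneg
      · intro f hf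
        rw [Fintype.mem_piFinset]
        intro i
        rw [Finset.mem_sdiff]
        refine ⟨Finset.mem_univ _, ?_⟩
        intro hfi
        rw [hIr] at hf
        rw [hIi] at hfi
        simp only [Finset.mem_filter, Finset.mem_univ, true_and] at hf hfi
        exact hI _ hfi _ hf rfl
      · intro f _ _
        exact Finset.prod_nonneg (fun i _ => hμ0 _)
    set A : ℝ := ∑ i, a i with hA
    have hA0 : 0 ≤ A := Finset.sum_nonneg (fun i _ => ha0 i)
    have hAle : A ≤ m / ρ := by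
      calc A ≤ ∑ i : Fin m, 1 / ρ := Finset.sum_le_sum (fun i _ => haρ i)
        _ = m / ρ := by simp; ring
    have hbound := prod_one_sub_bound Finset.univ a (fun i _ => ha0 i) (fun i _ => ha1 i)
    rw [← hA] at hbound
    have hP : ∏ i, (1 - a i) ≤ 1 / (1 + A) := by
      rw [le_div_iff₀ (by linarith), mul_comm]
      exact hbound
    have hS : A + β * ∑ f ∈ Ir, ∏ i, μ (f i) ≤ β := by
      have h1 : β * ∑ f ∈ Ir, ∏ i, μ (f i) ≤ β * (1 / (1 + A)) :=
        mul_le_mul_of_nonneg_left (hprod.trans hP) hβpos.le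
      have h2 : A + β * (1 / (1 + A)) ≤ β := by
        have h3 : 0 < 1 + A := by linarith
        rw [mul_one_div, ← sub_nonneg]
        have h4 : β - (A + β / (1 + A)) = A * (β - (1 + A)) / (1 + A) := by
          field_simp
          ring
        rw [h4]
        apply div_nonneg _ h3.le
        apply mul_nonneg hA0
        rw [hβ]; linarith
      linarith
    rw [hsplit, mul_div_assoc']
    rw [div_le_one hWpos]
    have hfac : (ρ + 1 / 2) * β ≤ W := by
      rw [hW, hβ]
      have h5 : ρ * (m / ρ) = m := by field_simp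
      have h6 : ρ ≤ 1 / 2 * (m / ρ) := by
        rw [mul_div_assoc', le_div_iff₀ hρpos]
        linarith
      nlinarith
    calc (ρ + 1 / 2) * (A + β * ∑ f ∈ Ir, ∏ i, μ (f i)) ≤ (ρ + 1 / 2) * β :=
          mul_le_mul_of_nonneg_left hS (by linarith)
      _ ≤ W := hfac

theorem exists_heavy (k : ℕ) :
    ∃ (V : Type) (_ : Fintype V) (_ : DecidableEq V) (G : SimpleGraph V) (μ : V → ℝ),
      (∀ x, 0 ≤ μ x) ∧ ∑ x, μ x = 1 ∧
      (∀ x y z, G.Adj x y → G.Adj y z → ¬ G.Adj x z) ∧
      (∀ I : Finset V, (∀ x ∈ I, ∀ y ∈ I, ¬ G.Adj x y) →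
        (1 + (k : ℝ) / 2) * ∑ x ∈ I, μ x ≤ 1) := by
  induction k with
  | zero =>
    refine ⟨Unit, inferInstance, inferInstance, ⊥, fun _ => 1, fun _ => zero_le_one, by simp,
      by simp, ?_⟩
    intro I _
    simp only [Nat.cast_zero, zero_div, add_zero, one_mul, Finset.sum_const, nsmul_eq_mul, mul_one]
    have : I.card ≤ 1 := by
      have := Finset.card_le_univ I
      simpa using this
    exact_mod_cast this
  | succ k ih =>
    have := zykov_step (1 + (k : ℝ) / 2) (by linarith [show (0 : ℝ) ≤ k from Nat.cast_nonneg k]) ih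
    have h1 : (1 + (k : ℝ) / 2) + 1 / 2 = 1 + ((k + 1 : ℕ) : ℝ) / 2 := by push_cast; ring
    rw [h1] at this
    exact this

end Pool.Agent.Lib.MP_fc0021_co
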